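import Pool.Agent.J4H81.GB.Stm

/-!
# GB (RCG): the choice of the class
-/

set_option autoImplicit false

namespace Pool.Agent.J4H84.GB

open Finset
open Pool.Agent.J4H81.GB Pool.Agent.J4H32.MV

theorem t_RCG : S_RCG := by
  classical
  intro hRC k w B hkw hw hB ρ
  have hWpos : 0 < primorial w := primorial_pos w
  by_cases hex : ∃ N₁ : Fin k → ℕ, AdG N₁ ∧ (fun i => N₁ i % primorial w) = ρ
  swap
  · exact ⟨0, hWpos, fun N hN hρ => absurd ⟨N, hN, hρ⟩ hex⟩
  obtain ⟨N₁, hAd, hρ⟩ := hex
  set a : Fin (k + 1) → ℕ := Fin.cons 0 (fun i => (primorial w - 1) * N₁ i) with ha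
  have hadm : ∀ p : ℕ, p.Prime → ∃ r : ℕ, ∀ j, ¬ p ∣ r + a j := by
    intro p hp
    have := Fact.mk hp
    by_cases hpw : p ≤ w
    · obtain ⟨r, hr, hri⟩ := hAd p hp
      have hpW : p ∣ primorial w := hp.dvd_primorial_iff.2 hpw
      refine ⟨r, fun j => ?_⟩
      refine Fin.cases ?_ (fun i => ?_) j
      · simpa [ha] using hr
      · rw [ha, Fin.cons_succ]
        intro hd
        apply hri i
        have h1 : ((r + (primorial w - 1) * N₁ i : ℕ) : ℤ) = (r : ℤ) - N₁ i + primorial w * N₁ i := by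
          push_cast [Nat.cast_sub (Nat.one_le_iff_ne_zero.2 hWpos.ne')]
          ring
        have h2 : (p : ℤ) ∣ ((r + (primorial w - 1) * N₁ i : ℕ) : ℤ) := by exact_mod_cast hd
        rw [h1] at h2
        have h3 : (p : ℤ) ∣ (primorial w : ℤ) * N₁ i := Dvd.dvd.mul_right (by exact_mod_cast hpW) _
        have h4 : (p : ℤ) ∣ (r : ℤ) - N₁ i := by
          have := dvd_sub h2 h3
          simpa using this
        have h5 := (dvd_neg (a := (p : ℤ)) (b := (r : ℤ) - N₁ i)).2 h4
        rwa [neg_sub] at h5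
    · have hcard : (Finset.univ.image (fun j : Fin (k + 1) => -((a j : ℕ) : ZMod p))).card < Fintype.card (ZMod p) := by
        rw [ZMod.card]
        refine (Finset.card_image_le).trans_lt ?_
        rw [Finset.card_univ, Fintype.card_fin]
        omega
      obtain ⟨r, hr⟩ : ∃ r : ZMod p, r ∉ Finset.univ.image (fun j : Fin (k + 1) => -((a j : ℕ) : ZMod p)) := by
        by_contra hcon
        push Not at hcon
        have : Finset.univ.image (fun j : Fin (k + 1) => -((a j : ℕ) : ZMod p)) = Finset.univ :=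
          Finset.eq_univ_iff_forall.2 hcon
        rw [this, Finset.card_univ] at hcard
        exact lt_irrefl _ hcard
      refine ⟨r.val, fun j hd => hr ?_⟩
      rw [Finset.mem_image]
      refine ⟨j, Finset.mem_univ j, ?_⟩
      have h1 : ((r.val + a j : ℕ) : ZMod p) = 0 := (ZMod.natCast_eq_zero_iff _ _).2 hd
      rw [Nat.cast_add, ZMod.natCast_zmod_val] at h1
      exact (eq_neg_of_add_eq_zero_left h1).symm
  have hB' : ((k + 1 : ℕ) : ℝ) * (B ∪ B.image Neg.neg).card *
      ((2 * ((k + 1 : ℕ) : ℝ)) ^ (2 * (k + 1)) * (w : ℝ) ^ (2 * (k + 1))) < primorial w := by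
    refine lt_of_le_of_lt ?_ hB
    have h1 : ((B ∪ B.image Neg.neg).card : ℝ) ≤ 2 * B.card := by
      have h2 : (B ∪ B.image Neg.neg).card ≤ 2 * B.card := by
        have := Finset.card_union_le B (B.image Neg.neg)
        have h3 : (B.image Neg.neg).card ≤ B.card := Finset.card_image_le
        omega
      exact_mod_cast h2
    have h3 : (0 : ℝ) ≤ (2 * ((k + 1 : ℕ) : ℝ)) ^ (2 * (k + 1)) * (w : ℝ) ^ (2 * (k + 1)) := by positivity
    have h4 : ((k + 1 : ℕ) : ℝ) * (B ∪ B.image Neg.neg).card ≤ 2 * ((k + 1 : ℕ) : ℝ) * B.card := by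
      have : (0 : ℝ) ≤ ((k + 1 : ℕ) : ℝ) := Nat.cast_nonneg _
      nlinarith
    exact mul_le_mul_of_nonneg_right h4 h3
  obtain ⟨b, hb, hbj⟩ := hRC (k + 1) w a (by omega) (by omega) hadm _ hB'
  refine ⟨b, hb, fun N _ hN => ?_⟩
  have hcast : ∀ i, ((N i : ℕ) : ZMod (primorial w)) = ((N₁ i : ℕ) : ZMod (primorial w)) := by
    intro i
    have h1 : N i % primorial w = N₁ i % primorial w := congrFun (hN.trans hρ.symm) i
    exact (ZMod.natCast_eq_natCast_iff _ _ _).2 h1
  constructor
  · obtain ⟨h1, h2⟩ := hbj 0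
    have ha0 : a 0 = 0 := rfl
    rw [ha0, Nat.add_zero] at h1 h2
    exact ⟨h1, fun h => h2 (Finset.mem_union_left _ h)⟩
  · intro i
    obtain ⟨h1, h2⟩ := hbj i.succ
    have has : a i.succ = (primorial w - 1) * N₁ i := rfl
    have hcalc : ((b + a i.succ : ℕ) : ZMod (primorial w)) = -((N i : ZMod (primorial w)) - (b : ZMod (primorial w))) := by
      rw [has, hcast i]
      push_cast [Nat.cast_sub (Nat.one_le_iff_ne_zero.2 hWpos.ne')]
      rw [ZMod.natCast_self]
      ring
    constructor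
    · have h3 := (ZMod.isUnit_iff_coprime (b + a i.succ) (primorial w)).2 h1
      rw [hcalc] at h3
      simpa using h3.neg
    · intro h
      apply h2
      rw [hcalc]
      exact Finset.mem_union_right _ (Finset.mem_image_of_mem _ h)

end Pool.Agent.J4H84.GB
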